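import Mathlib

set_option autoImplicit false

open Metric Set Filter Topology
open scoped ContDiff ComplexConjugate

namespace Pool.Agent.Q171.Core

/-- the second derivative of the square of the modulus of a curve -/
theorem second_norm_sq {a a' : ℝ → ℂ} {a2 : ℂ} (h1 : ∀ᶠ t in 𝓝 (0 : ℝ), HasDerivAt a (a' t) t)
    (h2 : HasDerivAt a' a2 0) :
    iteratedDeriv 2 (fun t => ‖a t‖ ^ 2) 0 = 2 * (‖a' 0‖ ^ 2 + (conj (a 0) * a2).re) := by
  have hre : ∀ {f : ℝ → ℂ} {f' : ℂ} {t : ℝ}, HasDerivAt f f' t →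
      HasDerivAt (fun t => (f t).re) f'.re t := fun h =>
    (Complex.reCLM.hasFDerivAt.comp_hasDerivAt _ h)
  have him : ∀ {f : ℝ → ℂ} {f' : ℂ} {t : ℝ}, HasDerivAt f f' t →
      HasDerivAt (fun t => (f t).im) f'.im t := fun h =>
    (Complex.imCLM.hasFDerivAt.comp_hasDerivAt _ h)
  have e : (fun t => ‖a t‖ ^ 2) = fun t => (a t).re * (a t).re + (a t).im * (a t).im := by
    funext t; rw [Complex.sq_norm, Complex.normSq_apply]
  have hd : ∀ᶠ t in 𝓝 (0 : ℝ), deriv (fun t => ‖a t‖ ^ 2) t =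
      2 * ((a t).re * (a' t).re + (a t).im * (a' t).im) := by
    filter_upwards [h1] with t ht
    rw [e]
    have : HasDerivAt (fun t => (a t).re * (a t).re + (a t).im * (a t).im) _ t :=
      ((hre ht).mul (hre ht)).add ((him ht).mul (him ht))
    rw [this.deriv]; ring
  rw [iteratedDeriv_succ, iteratedDeriv_one]
  have h0 := h1.self_of_nhds
  have hd2 : HasDerivAt (fun t => 2 * ((a t).re * (a' t).re + (a t).im * (a' t).im))
      (2 * (((a' 0).re * (a' 0).re + (a 0).re * a2.re) +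
        ((a' 0).im * (a' 0).im + (a 0).im * a2.im))) 0 :=
    (((hre h0).mul (hre h2)).add ((him h0).mul (him h2))).const_mul 2
  rw [Filter.EventuallyEq.deriv_eq hd, hd2.deriv, Complex.sq_norm, Complex.normSq_apply]
  simp only [Complex.mul_re, Complex.conj_re, Complex.conj_im]
  ring

/-- Laplacian of a function on the plane -/
noncomputable def lap (u : ℂ → ℝ) (p : ℂ) : ℝ :=
  iteratedDeriv 2 (fun t : ℝ => u (p + (t : ℂ))) 0 +
    iteratedDeriv 2 (fun t : ℝ => u (p + (t : ℂ) * Complex.I)) 0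

theorem line_contDiff {u : ℂ → ℝ} {p v : ℂ} (hu : ContDiffAt ℝ 2 u p) :
    ContDiffAt ℝ 2 (fun t : ℝ => u (p + (t : ℂ) * v)) 0 := by
  have h1 : ContDiff ℝ 2 (fun t : ℝ => p + (t : ℂ) * v) :=
    contDiff_const.add (Complex.ofRealCLM.contDiff.mul contDiff_const)
  have h2 : ContDiffAt ℝ 2 u (p + ((0 : ℝ) : ℂ) * v) := by simpa using hu
  exact ContDiffAt.comp (g := u) (0 : ℝ) h2 h1.contDiffAt

theorem line_contDiff' {u : ℂ → ℝ} {p : ℂ} (hu : ContDiffAt ℝ 2 u p) :
    ContDiffAt ℝ 2 (fun t : ℝ => u (p + (t : ℂ))) 0 := by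
  have := line_contDiff (v := 1) hu
  simpa using this

theorem lap_add {u v : ℂ → ℝ} {p : ℂ} (hu : ContDiffAt ℝ 2 u p) (hv : ContDiffAt ℝ 2 v p) :
    lap (fun z => u z + v z) p = lap u p + lap v p := by
  unfold lap
  have e1 := iteratedDeriv_add (n := 2) (line_contDiff' hu) (line_contDiff' hv)
  have e2 := iteratedDeriv_add (n := 2) (line_contDiff (v := Complex.I) hu)
    (line_contDiff (v := Complex.I) hv)
  have e1' : iteratedDeriv 2 (fun t : ℝ => u (p + (t : ℂ)) + v (p + (t : ℂ))) 0 = _ := e1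
  have e2' : iteratedDeriv 2 (fun t : ℝ => u (p + (t : ℂ) * Complex.I) +
    v (p + (t : ℂ) * Complex.I)) 0 = _ := e2
  rw [e1', e2']
  ring

theorem lap_const_mul {u : ℂ → ℝ} {p : ℂ} (hu : ContDiffAt ℝ 2 u p) (c : ℝ) :
    lap (fun z => c * u z) p = c * lap u p := by
  unfold lap
  have e1 := iteratedDeriv_const_mul (n := 2) c (line_contDiff' hu)
  have e2 := iteratedDeriv_const_mul (n := 2) c (line_contDiff (v := Complex.I) hu)
  rw [e1, e2]
  ring

theorem lap_norm_sq (p : ℂ) : lap (fun z => ‖z‖ ^ 2) p = 4 := by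
  unfold lap
  have h1 : ∀ (v : ℂ), ∀ t : ℝ, HasDerivAt (fun t : ℝ => p + (t : ℂ) * v) v t := by
    intro v t
    have := ((Complex.ofRealCLM.hasDerivAt (x := t)).mul_const v).const_add p
    simpa using this
  have e1 := second_norm_sq (a := fun t : ℝ => p + (t : ℂ) * 1) (a' := fun _ => 1) (a2 := 0)
    (Eventually.of_forall fun t => h1 1 t) (hasDerivAt_const _ _)
  have e2 := second_norm_sq (a := fun t : ℝ => p + (t : ℂ) * Complex.I) (a' := fun _ => Complex.I)
    (a2 := 0) (Eventually.of_forall fun t => h1 Complex.I t) (hasDerivAt_const _ _)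
  simp only [mul_one] at e1
  rw [e1, e2]
  simp
  norm_num

theorem lap_log {p : ℂ} (hp : p ≠ 0) : lap (fun z => Real.log ‖z‖) p = 0 := by
  have key : ∀ v : ℂ, iteratedDeriv 2 (fun t : ℝ => Real.log ‖p + (t : ℂ) * v‖) 0 =
      (2 * ‖v‖ ^ 2 * ‖p‖ ^ 2 - (2 * (p.re * v.re + p.im * v.im)) ^ 2) / (2 * (‖p‖ ^ 2) ^ 2) := by
    intro v
    set q : ℝ → ℝ := fun t => ‖p‖ ^ 2 + 2 * (p.re * v.re + p.im * v.im) * t + ‖v‖ ^ 2 * t ^ 2
      with hq
    have hqe : ∀ t : ℝ, ‖p + (t : ℂ) * v‖ ^ 2 = q t := by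
      intro t
      rw [hq]
      simp only [Complex.sq_norm, Complex.normSq_apply]
      simp
      ring
    have e : (fun t : ℝ => Real.log ‖p + (t : ℂ) * v‖) = fun t => (1 / 2) * Real.log (q t) := by
      funext t
      rw [← hqe, Real.log_pow]
      push_cast; ring
    rw [e]
    have hq0 : 0 < q 0 := by
      have : 0 < ‖p‖ := norm_pos_iff.mpr hp
      have e0 : q 0 = ‖p‖ ^ 2 := by simp [hq]
      rw [e0]; positivity
    have hqc : Continuous q := by simp only [hq]; fun_prop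
    have hqd : ∀ t, HasDerivAt q (2 * (p.re * v.re + p.im * v.im) + ‖v‖ ^ 2 * (2 * t)) t := by
      intro t
      have h1 := ((hasDerivAt_id t).const_mul (2 * (p.re * v.re + p.im * v.im))).const_add (‖p‖ ^ 2)
      have h2 := (hasDerivAt_pow 2 t).const_mul (‖v‖ ^ 2)
      have h3 : HasDerivAt q _ t := h1.add h2
      refine h3.congr_deriv ?_
      simp
    have hd : ∀ᶠ t in 𝓝 (0 : ℝ), deriv (fun t => (1 / 2) * Real.log (q t)) t =
        (2 * (p.re * v.re + p.im * v.im) + ‖v‖ ^ 2 * (2 * t)) / (2 * q t) := by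
      filter_upwards [hqc.continuousAt.eventually (lt_mem_nhds hq0)] with t ht
      have := ((hqd t).log (ne_of_gt ht)).const_mul (1 / 2)
      rw [this.deriv]
      field_simp
    rw [iteratedDeriv_succ, iteratedDeriv_one, Filter.EventuallyEq.deriv_eq hd]
    have hn : HasDerivAt (fun t : ℝ => 2 * (p.re * v.re + p.im * v.im) + ‖v‖ ^ 2 * (2 * t))
        (‖v‖ ^ 2 * 2) 0 := by
      have := (((hasDerivAt_id (0 : ℝ)).const_mul 2).const_mul (‖v‖ ^ 2)).const_add
        (2 * (p.re * v.re + p.im * v.im))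
      simpa using this
    have hdd := hn.div ((hqd 0).const_mul 2) (by positivity)
    have hdd' : deriv (fun t : ℝ => (2 * (p.re * v.re + p.im * v.im) + ‖v‖ ^ 2 * (2 * t)) /
      (2 * q t)) 0 = _ := hdd.deriv
    rw [hdd']
    have hq00 : q 0 = ‖p‖ ^ 2 := by simp [hq]
    rw [hq00]
    have : 0 < ‖p‖ := norm_pos_iff.mpr hp
    field_simp
    ring
  unfold lap
  have k1 := key 1
  have k2 := key Complex.I
  simp only [mul_one] at k1
  rw [k1, k2]
  have hpn : ‖p‖ ^ 2 = p.re * p.re + p.im * p.im := by rw [Complex.sq_norm, Complex.normSq_apply]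
  have : 0 < ‖p‖ := norm_pos_iff.mpr hp
  simp
  rw [← add_div, div_eq_zero_iff]
  left
  rw [hpn]
  ring

/-- second derivative at a local maximum -/
theorem second_le_zero {v : ℝ → ℝ} (hmax : IsLocalMax v 0) (hv : ContDiffAt ℝ 2 v 0) :
    iteratedDeriv 2 v 0 ≤ 0 := by
  rw [iteratedDeriv_succ, iteratedDeriv_one]
  by_contra hcon
  push Not at hcon
  have h0 : deriv v 0 = 0 := hmax.deriv_eq_zero
  have hmin := isLocalMin_of_deriv_deriv_pos hcon h0 hv.continuousAt
  have heq : v =ᶠ[𝓝 0] fun _ => v 0 := by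
    filter_upwards [hmax, hmin] with t h1 h2 using le_antisymm h1 h2
  have h1 : deriv v =ᶠ[𝓝 0] deriv (fun _ => v 0) := heq.deriv
  have h2 : deriv (deriv v) 0 = deriv (deriv (fun _ : ℝ => v 0)) 0 := h1.deriv_eq
  simp at h2
  linarith

theorem lap_le_zero {v : ℂ → ℝ} {p : ℂ} (hmax : IsLocalMax v p) (hv : ContDiffAt ℝ 2 v p) :
    lap v p ≤ 0 := by
  have hc : ∀ w : ℂ, Tendsto (fun t : ℝ => p + (t : ℂ) * w) (𝓝 0) (𝓝 p) := by
    intro w
    have : Continuous (fun t : ℝ => p + (t : ℂ) * w) := by fun_prop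
    simpa using this.tendsto 0
  have h1 : IsLocalMax (fun t : ℝ => v (p + (t : ℂ))) 0 := by
    have := (hc 1).eventually hmax
    simp only [mul_one] at this
    unfold IsLocalMax IsMaxFilter
    simpa using this
  have h2 : IsLocalMax (fun t : ℝ => v (p + (t : ℂ) * Complex.I)) 0 := by
    have := (hc Complex.I).eventually hmax
    unfold IsLocalMax IsMaxFilter
    simpa using this
  have := second_le_zero h1 (line_contDiff' hv)
  have := second_le_zero h2 (line_contDiff hv)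
  unfold lap
  linarith

theorem contDiffAt_log_norm {p : ℂ} (hp : p ≠ 0) : ContDiffAt ℝ 2 (fun z : ℂ => Real.log ‖z‖) p :=
  (contDiffAt_norm ℂ hp).log (norm_ne_zero_iff.mpr hp)

/-- three circles -/
theorem three_circles {u : ℂ → ℝ} {ρ R m M K : ℝ} (hρ : 0 < ρ) (hρR : ρ < R)
    (hu : ∀ z : ℂ, ρ ≤ ‖z‖ → ‖z‖ ≤ R → ContDiffAt ℝ 2 u z ∧ 0 ≤ lap u z)
    (h1 : ∀ z : ℂ, ‖z‖ = ρ → u z ≤ m) (h2 : ∀ z : ℂ, ‖z‖ = R → u z ≤ M)
    (hK : M - m ≤ K * Real.log (R / ρ)) {z : ℂ} (hz1 : ρ ≤ ‖z‖) (hz2 : ‖z‖ ≤ R) :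
    u z ≤ m + K * Real.log (‖z‖ / ρ) := by
  have hR : 0 < R := hρ.trans hρR
  set A : Set ℂ := {z | ρ ≤ ‖z‖ ∧ ‖z‖ ≤ R} with hA
  have hAc : IsCompact A := by
    apply Metric.isCompact_of_isClosed_isBounded
    · exact (isClosed_le continuous_const continuous_norm).inter
        (isClosed_le continuous_norm continuous_const)
    · rw [isBounded_iff_forall_norm_le]
      exact ⟨R, fun z hz => hz.2⟩
  have hne : ∀ z ∈ A, z ≠ 0 := fun z hz => by
    rintro rfl
    have := hz.1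
    rw [norm_zero] at this; linarith
  have main : ∀ τ : ℝ, 0 < τ → u z - K * Real.log ‖z‖ + τ * ‖z‖ ^ 2 ≤
      m - K * Real.log ρ + τ * R ^ 2 := by
    intro τ hτ
    set v : ℂ → ℝ := fun z => (u z + (-K) * Real.log ‖z‖) + τ * ‖z‖ ^ 2 with hv
    have hnsq : ∀ z : ℂ, ContDiffAt ℝ 2 (fun z : ℂ => ‖z‖ ^ 2) z := fun z =>
      (contDiff_norm_sq ℂ).contDiffAt
    have hvs : ∀ z ∈ A, ContDiffAt ℝ 2 v z := fun z hz =>
      ((hu z hz.1 hz.2).1.add (contDiffAt_const.mul (contDiffAt_log_norm (hne z hz)))).add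
        (contDiffAt_const.mul (hnsq z))
    obtain ⟨p, hpA, hpmax⟩ := hAc.exists_isMaxOn ⟨z, hz1, hz2⟩
      (fun z hz => (hvs z hz).continuousAt.continuousWithinAt)
    have hzp : v z ≤ v p := hpmax ⟨hz1, hz2⟩
    have hvp : v p ≤ m - K * Real.log ρ + τ * R ^ 2 := by
      rcases eq_or_lt_of_le hpA.1 with h | h
      · have := h1 p h.symm
        simp only [hv]
        rw [← h]
        have : τ * ρ ^ 2 ≤ τ * R ^ 2 := by gcongr
        linarith
      rcases eq_or_lt_of_le hpA.2 with h' | h'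
      · have := h2 p h'
        simp only [hv]
        rw [h']
        rw [Real.log_div hR.ne' hρ.ne'] at hK
        linarith
      · exfalso
        have hloc : IsLocalMax v p := by
          have hmem : A ∈ 𝓝 p := by
            have : {z : ℂ | ρ < ‖z‖ ∧ ‖z‖ < R} ∈ 𝓝 p :=
              ((isOpen_lt continuous_const continuous_norm).inter
                (isOpen_lt continuous_norm continuous_const)).mem_nhds ⟨h, h'⟩
            filter_upwards [this] with q hq using ⟨hq.1.le, hq.2.le⟩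
          exact hpmax.isLocalMax hmem
        have hle := lap_le_zero hloc (hvs p hpA)
        have hp0 := hne p hpA
        have e1 : lap v p = lap u p + (-K) * 0 + τ * 4 := by
          simp only [hv]
          rw [lap_add ((hu p hpA.1 hpA.2).1.add
            (contDiffAt_const.mul (contDiffAt_log_norm hp0))) (contDiffAt_const.mul (hnsq p)),
            lap_add (hu p hpA.1 hpA.2).1 (contDiffAt_const.mul (contDiffAt_log_norm hp0)),
            lap_const_mul (contDiffAt_log_norm hp0), lap_const_mul (hnsq p), lap_norm_sq,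
            lap_log hp0]
        rw [e1] at hle
        have := (hu p hpA.1 hpA.2).2
        linarith
    have : v z = u z - K * Real.log ‖z‖ + τ * ‖z‖ ^ 2 := by simp only [hv]; ring
    linarith
  have hlim : Tendsto (fun τ : ℝ => u z - K * Real.log ‖z‖ + τ * ‖z‖ ^ 2) (𝓝[>] 0)
      (𝓝 (u z - K * Real.log ‖z‖ + 0 * ‖z‖ ^ 2)) := by
    apply Tendsto.mono_left _ nhdsWithin_le_nhds
    exact Continuous.tendsto (by fun_prop) 0
  have hlim2 : Tendsto (fun τ : ℝ => m - K * Real.log ρ + τ * R ^ 2) (𝓝[>] 0)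
      (𝓝 (m - K * Real.log ρ + 0 * R ^ 2)) := by
    apply Tendsto.mono_left _ nhdsWithin_le_nhds
    exact Continuous.tendsto (by fun_prop) 0
  have := le_of_tendsto_of_tendsto hlim hlim2 (by
    filter_upwards [self_mem_nhdsWithin] with τ hτ using main τ hτ)
  have hz0 : 0 < ‖z‖ := hρ.trans_le hz1
  rw [Real.log_div hz0.ne' hρ.ne']
  linarith

end Pool.Agent.Q171.Core
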