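import Mathlib

set_option autoImplicit false

open scoped ContDiff

/-!
# Levi form, bounded plurisubharmonic functions, and the core of a domain in `ℂ²`
-/

namespace Pool.Agent.Q171.Core

/-- the Levi form of `φ` at `p` in the direction `ξ`: one quarter of the Laplacian at `ζ = 0` of
the function `ζ ↦ φ (p + ζ ξ)` of the complex variable `ζ` -/
noncomputable def lev (φ : ℂ × ℂ → ℝ) (p ξ : ℂ × ℂ) : ℝ :=
  (iteratedDeriv 2 (fun t : ℝ => φ (p + (t : ℂ) • ξ)) 0 +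
    iteratedDeriv 2 (fun t : ℝ => φ (p + ((t : ℂ) * Complex.I) • ξ)) 0) / 4

/-- `φ` is a smooth plurisubharmonic function on `D` that is bounded from above -/
structure BddPsh (D : Set (ℂ × ℂ)) (φ : ℂ × ℂ → ℝ) : Prop where
  smooth : ContDiffOn ℝ ∞ φ D
  psh : ∀ p ∈ D, ∀ ξ : ℂ × ℂ, 0 ≤ lev φ p ξ
  bdd : ∃ M : ℝ, ∀ p ∈ D, φ p ≤ M

/-- the core of `D`: the points at which no smooth plurisubharmonic function on `D` that is
bounded from above is strictly plurisubharmonic -/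
def core (D : Set (ℂ × ℂ)) : Set (ℂ × ℂ) :=
  {p ∈ D | ¬ ∃ φ : ℂ × ℂ → ℝ, BddPsh D φ ∧ ∀ ξ : ℂ × ℂ, ξ ≠ 0 → 0 < lev φ p ξ}

end Pool.Agent.Q171.Core
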