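import Pool.Agent.Q171.Core.Basic
import Pool.Agent.Q171.Core.Defs

set_option autoImplicit false

open Metric Set Filter Topology
open scoped ContDiff ComplexConjugate

namespace Pool.Agent.Q171.Core

theorem two_le_infty : (2 : WithTop ℕ∞) ≤ ∞ := WithTop.coe_le_coe.mpr le_top

theorem lev_line_contDiff {φ : ℂ × ℂ → ℝ} {p v : ℂ × ℂ} {c : ℂ} (hu : ContDiffAt ℝ 2 φ p) :
    ContDiffAt ℝ 2 (fun t : ℝ => φ (p + ((t : ℂ) * c) • v)) 0 := by
  have h1 : ContDiff ℝ 2 (fun t : ℝ => p + ((t : ℂ) * c) • v) :=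
    contDiff_const.add ((Complex.ofRealCLM.contDiff.mul contDiff_const).smul contDiff_const)
  have h2 : ContDiffAt ℝ 2 φ (p + (((0 : ℝ) : ℂ) * c) • v) := by simpa using hu
  exact ContDiffAt.comp (g := φ) (0 : ℝ) h2 h1.contDiffAt

theorem lev_line_contDiff' {φ : ℂ × ℂ → ℝ} {p v : ℂ × ℂ} (hu : ContDiffAt ℝ 2 φ p) :
    ContDiffAt ℝ 2 (fun t : ℝ => φ (p + (t : ℂ) • v)) 0 := by
  have := lev_line_contDiff (v := v) (c := 1) hu
  simpa using this

theorem lev_add {u v : ℂ × ℂ → ℝ} {p ξ : ℂ × ℂ} (hu : ContDiffAt ℝ 2 u p)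
    (hv : ContDiffAt ℝ 2 v p) : lev (fun z => u z + v z) p ξ = lev u p ξ + lev v p ξ := by
  unfold lev
  have e1 : iteratedDeriv 2 (fun t : ℝ => u (p + (t : ℂ) • ξ) + v (p + (t : ℂ) • ξ)) 0 = _ :=
    iteratedDeriv_add (n := 2) (lev_line_contDiff' (v := ξ) hu) (lev_line_contDiff' (v := ξ) hv)
  have e2 : iteratedDeriv 2 (fun t : ℝ => u (p + ((t : ℂ) * Complex.I) • ξ) +
      v (p + ((t : ℂ) * Complex.I) • ξ)) 0 = _ :=
    iteratedDeriv_add (n := 2) (lev_line_contDiff (v := ξ) (c := Complex.I) hu)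
      (lev_line_contDiff (v := ξ) (c := Complex.I) hv)
  rw [e1, e2]
  ring

/-- Levi form of the squared modulus of a function holomorphic near the line -/
theorem lev_norm_sq {f : ℂ × ℂ → ℂ} {p ξ : ℂ × ℂ} {h' : ℂ → ℂ} {h2 : ℂ}
    (hf : ∀ᶠ ζ in 𝓝 (0 : ℂ), HasDerivAt (fun ζ : ℂ => f (p + ζ • ξ)) (h' ζ) ζ)
    (hf2 : HasDerivAt h' h2 0) :
    lev (fun q => ‖f q‖ ^ 2) p ξ = ‖h' 0‖ ^ 2 := by
  have key : ∀ c : ℂ, iteratedDeriv 2 (fun t : ℝ => ‖f (p + ((t : ℂ) * c) • ξ)‖ ^ 2) 0 =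
      2 * (‖h' 0 * c‖ ^ 2 + (conj (f p) * (h2 * c * c)).re) := by
    intro c
    have hlin : ∀ t : ℝ, HasDerivAt (fun t : ℝ => (t : ℂ) * c) c t := by
      intro t
      have := (Complex.ofRealCLM.hasDerivAt (x := t)).mul_const c
      simpa using this
    have htend : Tendsto (fun t : ℝ => (t : ℂ) * c) (𝓝 0) (𝓝 0) := by
      have : Continuous (fun t : ℝ => (t : ℂ) * c) := by fun_prop
      simpa using this.tendsto 0
    have h1 : ∀ᶠ t : ℝ in 𝓝 (0 : ℝ), HasDerivAt (fun t : ℝ => f (p + ((t : ℂ) * c) • ξ))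
        (h' ((t : ℂ) * c) * c) t := by
      filter_upwards [htend.eventually hf] with t ht
      exact ht.scomp_of_eq t (hlin t) rfl |>.congr_deriv (by rw [smul_eq_mul, mul_comm])
    have h0 : HasDerivAt h' h2 (((0 : ℝ) : ℂ) * c) := by simpa using hf2
    have h3 : HasDerivAt (fun t : ℝ => h' ((t : ℂ) * c) * c) (h2 * c * c) 0 := by
      have := (h0.scomp_of_eq (0 : ℝ) (hlin 0) rfl).mul_const c
      refine this.congr_deriv ?_
      rw [smul_eq_mul]; ring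
    have := second_norm_sq h1 h3
    simpa using this
  have k1 := key 1
  have k2 := key Complex.I
  simp only [mul_one] at k1
  unfold lev
  rw [k1, k2]
  have e : h2 * Complex.I * Complex.I = -h2 := by
    rw [mul_assoc, Complex.I_mul_I]; ring
  rw [e, norm_mul, Complex.norm_I]
  simp only [mul_neg, Complex.neg_re]
  ring

/-- the basic domain -/
def Om : Set (ℂ × ℂ) := {p | ‖p.2‖ ^ 2 * (1 + ‖p.1‖ ^ 2) < 1}

theorem isOpen_om : IsOpen Om := isOpen_lt (by fun_prop) continuous_const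

/-- bounded above plurisubharmonic functions are constant along the line `w = 0` -/
theorem const_on_line {D : Set (ℂ × ℂ)} (hD : IsOpen D)
    (hsub : ∀ p ∈ Om, p.2 ≠ 0 → p ∈ D) {φ : ℂ × ℂ → ℝ} (hφ : BddPsh D φ) {z z' : ℂ}
    (hz : (z, (0 : ℂ)) ∈ D) (hz' : (z', (0 : ℂ)) ∈ D) : φ (z, 0) ≤ φ (z', 0) := by
  obtain ⟨M, hM⟩ := hφ.bdd
  have hsm : ∀ p ∈ D, ContDiffAt ℝ 2 φ p := fun p hp =>
    ((hφ.smooth p hp).contDiffAt (hD.mem_nhds hp)).of_le two_le_infty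
  have hcont : ∀ p ∈ D, ContinuousAt φ p := fun p hp => (hsm p hp).continuousAt
  by_cases hzz : z = z'
  · rw [hzz]
  apply le_of_forall_pos_le_add
  intro ε hε
  have hzn : 0 < ‖z - z'‖ := norm_pos_iff.mpr (sub_ne_zero.mpr hzz)
  -- a neighbourhood of `(z', 0)`
  have hev : ∀ᶠ p in 𝓝 (z', (0 : ℂ)), φ p < φ (z', 0) + ε :=
    (hcont _ hz').eventually (gt_mem_nhds (by linarith))
  obtain ⟨δ, hδ, hball⟩ := Metric.eventually_nhds_iff_ball.mp hev
  set ρ : ℝ := min (δ / 2) (‖z - z'‖ / 2) with hρd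
  have hρ : 0 < ρ := lt_min (by positivity) (by positivity)
  have hρδ : ρ < δ := lt_of_le_of_lt (min_le_left _ _) (by linarith)
  have hρz : ρ < ‖z - z'‖ := lt_of_le_of_lt (min_le_right _ _) (by linarith)
  set m : ℝ := φ (z', 0) + ε with hm
  set c : ℕ → ℝ := fun k => 1 / (2 * (1 + ‖z'‖ + k)) with hc
  have hcpos : ∀ k, 0 < c k := fun k => by simp only [hc]; positivity
  have hctend : Tendsto c atTop (𝓝 0) := by
    simp only [hc]
    have h1 : Tendsto (fun k : ℕ => 2 * (1 + ‖z'‖ + (k : ℝ))) atTop atTop := by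
      apply Tendsto.const_mul_atTop (by norm_num)
      exact tendsto_atTop_add_const_left _ _ tendsto_natCast_atTop_atTop
    simp only [one_div]
    exact h1.inv_tendsto_atTop
  -- membership
  have hmem : ∀ (k : ℕ) (ζ : ℂ), ‖ζ‖ ≤ k → (z' + ζ, ((c k : ℝ) : ℂ)) ∈ D := by
    intro k ζ hζ
    apply hsub
    · show ‖((c k : ℝ) : ℂ)‖ ^ 2 * (1 + ‖z' + ζ‖ ^ 2) < 1
      rw [Complex.norm_real, Real.norm_of_nonneg (hcpos k).le]
      have h1 : ‖z' + ζ‖ ≤ ‖z'‖ + k := (norm_add_le _ _).trans (by linarith)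
      have h2 : 1 + ‖z' + ζ‖ ^ 2 ≤ (1 + ‖z'‖ + k) ^ 2 := by
        have h3 : ‖z' + ζ‖ ^ 2 ≤ (‖z'‖ + k) ^ 2 := by gcongr
        have h4 : (0 : ℝ) ≤ ‖z'‖ + k := by positivity
        nlinarith
      have h5 : (c k) ^ 2 * (1 + ‖z'‖ + k) ^ 2 = 1 / 4 := by
        simp only [hc]; field_simp; norm_num
      calc (c k) ^ 2 * (1 + ‖z' + ζ‖ ^ 2) ≤ (c k) ^ 2 * (1 + ‖z'‖ + k) ^ 2 := by gcongr
        _ < 1 := by rw [h5]; norm_num
    · simp only [ne_eq, Complex.ofReal_eq_zero]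
      exact (hcpos k).ne'
  -- the estimate for large `k`
  set L : ℝ := max (M - m) 0 with hL
  have hest : ∀ᶠ k : ℕ in atTop, φ (z, ((c k : ℝ) : ℂ)) ≤
      m + L / Real.log (k / ρ) * Real.log (‖z - z'‖ / ρ) := by
    have hk1 : ∀ᶠ k : ℕ in atTop, ‖z - z'‖ < (k : ℝ) :=
      tendsto_natCast_atTop_atTop.eventually_gt_atTop _
    have hk2 : ∀ᶠ k : ℕ in atTop, c k < δ := hctend.eventually_lt_const hδ
    filter_upwards [hk1, hk2] with k hk1 hk2
    have hρk : ρ < k := hρz.trans hk1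
    have hlog : 0 < Real.log (k / ρ) := Real.log_pos (by rw [one_lt_div hρ]; exact hρk)
    have h3 := three_circles (u := fun ζ => φ (z' + ζ, ((c k : ℝ) : ℂ))) (ρ := ρ) (R := k)
      (m := m) (M := M) (K := L / Real.log (k / ρ)) hρ hρk ?_ ?_ ?_ ?_ (z := z - z') hρz.le hk1.le
    · simpa using h3
    · intro ζ _ hζ
      have hD' := hmem k ζ hζ
      constructor
      · have h1 : ContDiff ℝ 2 (fun ζ : ℂ => (z' + ζ, ((c k : ℝ) : ℂ))) := by fun_prop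
        exact ContDiffAt.comp (g := φ) ζ (hsm _ hD') h1.contDiffAt
      · have h2 := hφ.psh _ hD' ((1 : ℂ), (0 : ℂ))
        unfold lev at h2
        simp only [Prod.smul_mk, smul_eq_mul, mul_one, mul_zero, Prod.mk_add_mk, add_zero] at h2
        unfold lap
        simp only [← add_assoc]
        linarith
    · intro ζ hζ
      apply le_of_lt
      apply hball
      rw [mem_ball, dist_eq_norm]
      have : (z' + ζ, ((c k : ℝ) : ℂ)) - (z', 0) = (ζ, ((c k : ℝ) : ℂ)) := by simp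
      rw [this, Prod.norm_def]
      apply max_lt
      · simp only; rw [hζ]; exact hρδ
      · simp only; rw [Complex.norm_real, Real.norm_of_nonneg (hcpos k).le]; exact hk2
    · intro ζ hζ
      exact hM _ (hmem k ζ hζ.le)
    · rw [div_mul_cancel₀ _ hlog.ne']
      exact le_max_left _ _
  have hlim1 : Tendsto (fun k => φ (z, ((c k : ℝ) : ℂ))) atTop (𝓝 (φ (z, 0))) := by
    apply (hcont _ hz).tendsto.comp
    have : Tendsto (fun k => ((c k : ℝ) : ℂ)) atTop (𝓝 ((0 : ℝ) : ℂ)) :=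
      (Complex.continuous_ofReal.tendsto _).comp hctend
    rw [Complex.ofReal_zero] at this
    exact tendsto_const_nhds.prodMk_nhds this
  have hlim2 : Tendsto (fun k : ℕ => m + L / Real.log (k / ρ) * Real.log (‖z - z'‖ / ρ)) atTop
      (𝓝 (m + 0 * Real.log (‖z - z'‖ / ρ))) := by
    apply Tendsto.const_add
    apply Tendsto.mul_const
    have h1 : Tendsto (fun k : ℕ => (k : ℝ) / ρ) atTop atTop :=
      tendsto_natCast_atTop_atTop.atTop_div_const hρ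
    exact (Real.tendsto_log_atTop.comp h1).const_div_atTop L
  have := le_of_tendsto_of_tendsto hlim1 hlim2 hest
  linarith

/-- points of the line are in the core -/
theorem line_in_core {D : Set (ℂ × ℂ)} (hD : IsOpen D)
    (hsub : ∀ p ∈ Om, p.2 ≠ 0 → p ∈ D) {z : ℂ} (hz : (z, (0 : ℂ)) ∈ D) : (z, (0 : ℂ)) ∈ core D := by
  refine ⟨hz, ?_⟩
  rintro ⟨φ, hφ, hpos⟩
  have hlt := hpos ((1 : ℂ), (0 : ℂ)) (by
    intro h; exact one_ne_zero (congrArg Prod.fst h))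
  have hnb : ∀ᶠ ζ in 𝓝 (0 : ℂ), (z + ζ, (0 : ℂ)) ∈ D := by
    have hc : Continuous (fun ζ : ℂ => (z + ζ, (0 : ℂ))) := by fun_prop
    have := hc.continuousAt (x := 0)
    apply this.eventually
    simpa using hD.mem_nhds hz
  have hconst : ∀ᶠ ζ in 𝓝 (0 : ℂ), φ (z + ζ, (0 : ℂ)) = φ (z, 0) := by
    filter_upwards [hnb] with ζ hζ
    exact le_antisymm (const_on_line hD hsub hφ hζ hz) (const_on_line hD hsub hφ hz hζ)
  have key : ∀ c : ℂ, iteratedDeriv 2 (fun t : ℝ => φ ((z, (0 : ℂ)) + ((t : ℂ) * c) • ((1 : ℂ), (0 : ℂ)))) 0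
      = 0 := by
    intro c
    have htend : Tendsto (fun t : ℝ => (t : ℂ) * c) (𝓝 0) (𝓝 0) := by
      have : Continuous (fun t : ℝ => (t : ℂ) * c) := by fun_prop
      simpa using this.tendsto 0
    have h1 : (fun t : ℝ => φ ((z, (0 : ℂ)) + ((t : ℂ) * c) • ((1 : ℂ), (0 : ℂ)))) =ᶠ[𝓝 0]
        fun _ => φ (z, 0) := by
      filter_upwards [htend.eventually hconst] with t ht
      rw [← ht]
      congr 1
      simp
    rw [iteratedDeriv_succ, iteratedDeriv_one]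
    have h2 := h1.deriv.deriv_eq
    rw [h2]
    simp
  have k1 := key 1
  have k2 := key Complex.I
  simp only [mul_one] at k1
  unfold lev at hlt
  rw [k1, k2] at hlt
  norm_num at hlt

/-- the function `|w|² + |zw|²` -/
theorem base_psh : BddPsh Om (fun p => ‖p.2‖ ^ 2 + ‖p.1 * p.2‖ ^ 2) ∧
    ∀ p : ℂ × ℂ, p.2 ≠ 0 → ∀ ξ : ℂ × ℂ, ξ ≠ 0 → 0 < lev (fun p => ‖p.2‖ ^ 2 + ‖p.1 * p.2‖ ^ 2) p ξ := by
  have s1 : ContDiff ℝ ∞ (fun p : ℂ × ℂ => ‖p.2‖ ^ 2) := (contDiff_norm_sq ℂ).comp contDiff_snd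
  have s2 : ContDiff ℝ ∞ (fun p : ℂ × ℂ => ‖p.1 * p.2‖ ^ 2) :=
    (contDiff_norm_sq ℂ).comp (contDiff_fst.mul contDiff_snd)
  have hlev : ∀ p ξ : ℂ × ℂ, lev (fun p => ‖p.2‖ ^ 2 + ‖p.1 * p.2‖ ^ 2) p ξ =
      ‖ξ.2‖ ^ 2 + ‖ξ.1 * p.2 + p.1 * ξ.2‖ ^ 2 := by
    intro p ξ
    rw [lev_add (s1.contDiffAt.of_le two_le_infty)
      (s2.contDiffAt.of_le two_le_infty)]
    have hid : ∀ (a b ζ : ℂ), HasDerivAt (fun ζ : ℂ => a + ζ * b) b ζ := by
      intro a b ζ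
      simpa using ((hasDerivAt_id ζ).mul_const b).const_add a
    congr 1
    · exact lev_norm_sq (f := fun q => q.2) (h' := fun _ => ξ.2) (h2 := 0)
        (Eventually.of_forall fun ζ => by simpa using hid p.2 ξ.2 ζ) (hasDerivAt_const _ _)
    · have := lev_norm_sq (f := fun q => q.1 * q.2) (p := p) (ξ := ξ)
        (h' := fun ζ => ξ.1 * (p.2 + ζ * ξ.2) + (p.1 + ζ * ξ.1) * ξ.2)
        (h2 := ξ.1 * ξ.2 + ξ.1 * ξ.2)
        (Eventually.of_forall fun ζ => by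
          simpa using (hid p.1 ξ.1 ζ).fun_mul (hid p.2 ξ.2 ζ))
        (((hid p.2 ξ.2 0).const_mul ξ.1).add ((hid p.1 ξ.1 0).mul_const ξ.2))
      simpa using this
  refine ⟨⟨(s1.add s2).contDiffOn, fun p _ ξ => ?_, 1, fun p hp => ?_⟩, fun p hp ξ hξ => ?_⟩
  · rw [hlev]; positivity
  · have : ‖p.2‖ ^ 2 * (1 + ‖p.1‖ ^ 2) < 1 := hp
    show ‖p.2‖ ^ 2 + ‖p.1 * p.2‖ ^ 2 ≤ 1
    rw [norm_mul, mul_pow]
    nlinarith
  · rw [hlev]
    by_cases h2 : ξ.2 = 0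
    · have h1 : ξ.1 ≠ 0 := fun h1 => hξ (Prod.ext h1 h2)
      rw [h2, mul_zero, add_zero]
      have : 0 < ‖ξ.1 * p.2‖ := norm_pos_iff.mpr (mul_ne_zero h1 hp)
      positivity
    · have : 0 < ‖ξ.2‖ := norm_pos_iff.mpr h2
      positivity

theorem BddPsh.mono {D D' : Set (ℂ × ℂ)} (h : D ⊆ D') {φ : ℂ × ℂ → ℝ} (hφ : BddPsh D' φ) :
    BddPsh D φ :=
  ⟨hφ.smooth.mono h, fun p hp => hφ.psh p (h hp), hφ.bdd.imp fun _ hM p hp => hM p (h hp)⟩

theorem core_subset_line {D : Set (ℂ × ℂ)} (hD : D ⊆ Om) {p : ℂ × ℂ} (hp : p ∈ core D) :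
    p.2 = 0 := by
  by_contra hcon
  exact hp.2 ⟨_, base_psh.1.mono hD, base_psh.2 p hcon⟩

/-- the map `(z, s) ↦ (z, s / √(1+|z|²))` -/
noncomputable def shr (p : ℂ × ℂ) : ℂ × ℂ := (p.1, ((Real.sqrt (1 + ‖p.1‖ ^ 2))⁻¹ : ℝ) • p.2)

theorem shr_continuous : Continuous shr := by
  unfold shr
  apply Continuous.prodMk continuous_fst
  have h1 : Continuous (fun p : ℂ × ℂ => (Real.sqrt (1 + ‖p.1‖ ^ 2))⁻¹) := by
    apply Continuous.inv₀ (by fun_prop)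
    intro p
    exact (Real.sqrt_pos.mpr (by positivity)).ne'
  exact h1.smul continuous_snd

theorem shr_image (A : Set ℂ) (B : Set ℂ) :
    shr '' (A ×ˢ B) = {p | p.1 ∈ A ∧ ((Real.sqrt (1 + ‖p.1‖ ^ 2) : ℝ) • p.2) ∈ B} := by
  ext p
  constructor
  · rintro ⟨q, ⟨hq1, hq2⟩, rfl⟩
    refine ⟨hq1, ?_⟩
    have hs : 0 < Real.sqrt (1 + ‖q.1‖ ^ 2) := Real.sqrt_pos.mpr (by positivity)
    simp only [shr, smul_smul, mul_inv_cancel₀ hs.ne', one_smul]
    exact hq2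
  · rintro ⟨h1, h2⟩
    have hs : 0 < Real.sqrt (1 + ‖p.1‖ ^ 2) := Real.sqrt_pos.mpr (by positivity)
    refine ⟨(p.1, (Real.sqrt (1 + ‖p.1‖ ^ 2) : ℝ) • p.2), ⟨h1, h2⟩, ?_⟩
    simp only [shr, smul_smul, inv_mul_cancel₀ hs.ne', one_smul]

theorem om_iff (p : ℂ × ℂ) : p ∈ Om ↔ ‖(Real.sqrt (1 + ‖p.1‖ ^ 2) : ℝ) • p.2‖ < 1 := by
  have hs : 0 < Real.sqrt (1 + ‖p.1‖ ^ 2) := Real.sqrt_pos.mpr (by positivity)
  rw [norm_smul, Real.norm_of_nonneg hs.le]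
  have h1 : (Real.sqrt (1 + ‖p.1‖ ^ 2) * ‖p.2‖) ^ 2 = ‖p.2‖ ^ 2 * (1 + ‖p.1‖ ^ 2) := by
    rw [mul_pow, Real.sq_sqrt (by positivity)]; ring
  show ‖p.2‖ ^ 2 * (1 + ‖p.1‖ ^ 2) < 1 ↔ _
  rw [← h1]
  constructor
  · intro h
    by_contra hcon
    push Not at hcon
    nlinarith
  · intro h
    have : 0 ≤ Real.sqrt (1 + ‖p.1‖ ^ 2) * ‖p.2‖ := by positivity
    nlinarith

theorem isConnected_polar {a b : ℝ} (hab : a < b) (ha : 0 ≤ a) :
    IsConnected {z : ℂ | a < ‖z‖ ∧ ‖z‖ < b} := by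
  have h : {z : ℂ | a < ‖z‖ ∧ ‖z‖ < b} =
      (fun p : ℝ × ℝ => (p.1 : ℂ) * Complex.exp (p.2 * Complex.I)) '' (Ioo a b ×ˢ univ) := by
    ext z
    constructor
    · rintro ⟨h1, h2⟩
      exact ⟨(‖z‖, Complex.arg z), ⟨⟨h1, h2⟩, mem_univ _⟩, Complex.norm_mul_exp_arg_mul_I z⟩
    · rintro ⟨⟨r, θ⟩, ⟨⟨h1, h2⟩, _⟩, rfl⟩
      have : ‖(r : ℂ) * Complex.exp (θ * Complex.I)‖ = r := by
        rw [norm_mul, Complex.norm_exp_ofReal_mul_I, mul_one, Complex.norm_real,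
          Real.norm_of_nonneg (by simp only at h1; linarith)]
      show a < ‖(r : ℂ) * Complex.exp (θ * Complex.I)‖ ∧ ‖(r : ℂ) * Complex.exp (θ * Complex.I)‖ < b
      rw [this]
      exact ⟨h1, h2⟩
  rw [h]
  exact ((isConnected_Ioo hab).prod isConnected_univ).image _ (by fun_prop)

theorem isConnected_outer : IsConnected {z : ℂ | 1 < ‖z‖} := by
  have h : {z : ℂ | 1 < ‖z‖} =
      (fun p : ℝ × ℝ => (p.1 : ℂ) * Complex.exp (p.2 * Complex.I)) '' (Ioi 1 ×ˢ univ) := by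
    ext z
    constructor
    · intro h1
      exact ⟨(‖z‖, Complex.arg z), ⟨h1, mem_univ _⟩, Complex.norm_mul_exp_arg_mul_I z⟩
    · rintro ⟨⟨r, θ⟩, ⟨h1, _⟩, rfl⟩
      have h1' : (1 : ℝ) < r := h1
      have : ‖(r : ℂ) * Complex.exp (θ * Complex.I)‖ = r := by
        rw [norm_mul, Complex.norm_exp_ofReal_mul_I, mul_one, Complex.norm_real,
          Real.norm_of_nonneg (by linarith)]
      show 1 < ‖(r : ℂ) * Complex.exp (θ * Complex.I)‖
      rw [this]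
      exact h1'
  rw [h]
  exact ((isConnected_Ioi).prod isConnected_univ).image _ (by fun_prop)

/-- a set squeezed between `{p ∈ Om : w ≠ 0}` and `Om` is connected -/
theorem connected_between {D : Set (ℂ × ℂ)} (hD : D ⊆ Om)
    (hsub : ∀ p ∈ Om, p.2 ≠ 0 → p ∈ D) : IsConnected D := by
  have hA : IsConnected {p : ℂ × ℂ | p ∈ Om ∧ p.2 ≠ 0} := by
    have h1 : {p : ℂ × ℂ | p ∈ Om ∧ p.2 ≠ 0} = shr '' (univ ×ˢ {z : ℂ | 0 < ‖z‖ ∧ ‖z‖ < 1}) := by
      rw [shr_image]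
      ext p
      have hs : 0 < Real.sqrt (1 + ‖p.1‖ ^ 2) := Real.sqrt_pos.mpr (by positivity)
      constructor
      · rintro ⟨h1, h2⟩
        refine ⟨mem_univ _, ?_, (om_iff p).mp h1⟩
        rw [norm_pos_iff]
        exact smul_ne_zero hs.ne' h2
      · rintro ⟨_, h1, h2⟩
        refine ⟨(om_iff p).mpr h2, ?_⟩
        rintro h3
        rw [h3, smul_zero, norm_zero] at h1
        exact lt_irrefl _ h1
    rw [h1]
    exact (isConnected_univ.prod (isConnected_polar zero_lt_one le_rfl)).image _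
      shr_continuous.continuousOn
  refine hA.subset_closure (fun p hp => hsub p hp.1 hp.2) ?_
  intro p hp
  by_cases h : p.2 = 0
  · rw [Metric.mem_closure_iff]
    intro ε hε
    obtain ⟨δ, hδ, hball⟩ := Metric.isOpen_iff.mp isOpen_om p (hD hp)
    set η : ℝ := min ε δ / 2 with hη
    have hη0 : 0 < η := by positivity
    have h1 : dist (p.1, ((η : ℝ) : ℂ)) p < min ε δ := by
      rw [dist_eq_norm]
      have : (p.1, ((η : ℝ) : ℂ)) - p = (0, ((η : ℝ) : ℂ)) := by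
        refine Prod.ext ?_ ?_ <;> simp [h]
      rw [this, Prod.norm_def]
      simp only [norm_zero, Complex.norm_real, Real.norm_of_nonneg hη0.le]
      rw [max_eq_right hη0.le]
      have : 0 < min ε δ := lt_min hε hδ
      linarith
    refine ⟨(p.1, ((η : ℝ) : ℂ)), ⟨hball (h1.trans_le (min_le_right _ _)), ?_⟩, ?_⟩
    · simp only [ne_eq, Complex.ofReal_eq_zero]; exact hη0.ne'
    · rw [dist_comm]; exact h1.trans_le (min_le_left _ _)
  · exact subset_closure ⟨hD hp, h⟩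

end Pool.Agent.Q171.Core
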